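import Pool.Agent.H84.FK.Targets

set_option autoImplicit false
set_option linter.unusedVariables false

namespace Pool.Agent.H89.FK.EVEN

open Pool.Agent.H84.FK

theorem card_sylow {G : Type} [Group G] [Finite G] (P : Sylow 2 G) (m : ℕ)
    (hm : ¬ 2 ∣ m) (h : Nat.card G = 2 * m) : Nat.card P = 2 := by
  have : Fact (Nat.Prime 2) := ⟨Nat.prime_two⟩
  have h0 : m ≠ 0 := fun h0 => hm (h0 ▸ dvd_zero 2)
  rw [Sylow.card_eq_multiplicity P, h, Nat.factorization_mul (by norm_num) h0]
  simp [Nat.factorization_eq_zero_of_not_dvd hm, Nat.prime_two.factorization_self]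

theorem eq_of_card_two {G : Type} [Group G] (P : Subgroup G) (hP : Nat.card P = 2)
    {x y : G} (hx : x ∈ P) (hy : y ∈ P) (hx1 : x ≠ 1) (hy1 : y ≠ 1) : x = y := by
  have h := Nat.card_eq_two_iff' (⟨1, P.one_mem⟩ : P)
  obtain ⟨z, hz, hu⟩ := h.1 hP
  have a := hu ⟨x, hx⟩ (fun h => hx1 (congrArg Subtype.val h))
  have b := hu ⟨y, hy⟩ (fun h => hy1 (congrArg Subtype.val h))
  exact congrArg Subtype.val (a.trans b.symm)

theorem pf_even (hBUR : T_BUR) (hC4 : T_C4) (hS2 : T_S2) : T_EVEN := by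
  intro G _ A B B0 h
  have := h.fin
  have : Fact (Nat.Prime 2) := ⟨Nat.prime_two⟩
  by_contra hcon
  push Not at hcon
  obtain ⟨hA, hB⟩ := hcon
  obtain ⟨-, -, hG⟩ := hC4 G A B B0 h
  have hodd : ¬ 2 ∣ Nat.card A * Nat.card B0 := by
    rw [Nat.prime_two.dvd_mul]
    exact fun h => h.elim hA hB
  obtain ⟨P⟩ : Nonempty (Sylow 2 G) := inferInstance
  have hP : Nat.card (P : Subgroup G) = 2 := card_sylow P _ hodd (by rw [hG, mul_assoc])
  obtain ⟨K, hKn, hKo, hKP⟩ := hBUR G 2 Nat.prime_two (P : Subgroup G) P.isPGroup'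
    (Sylow.not_dvd_index P) (by
      intro g hg x hx
      by_cases hx1 : x = 1
      · simp [hx1]
      · have h2 : g * x * g⁻¹ ≠ 1 := by
          intro h2
          apply hx1
          rwa [conj_eq_one_iff] at h2
        have h3 := eq_of_card_two (P : Subgroup G) hP (hg x hx) hx h2 hx1
        rw [mul_inv_eq_iff_eq_mul] at h3
        exact h3)
  have hAK : A ≤ K := by
    intro a ha
    refine hKo a (fun h2 => hA (h2.trans ?_))
    have := orderOf_dvd_natCard (⟨a, ha⟩ : A)
    rwa [Subgroup.orderOf_mk] at this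
  have hKtop : K ≠ ⊤ := by
    intro hK
    have hcard : Nat.card (P : Subgroup G) = 1 := by
      have hb : (P : Subgroup G) = ⊥ := by
        rw [Subgroup.eq_bot_iff_forall]
        intro x hx
        exact hKP x hx (hK ▸ Subgroup.mem_top x)
      rw [hb, Subgroup.card_bot]
    omega
  have hKs : Group.IsSolvable K := by
    refine h.sub K hKtop ?_
    intro g hg
    obtain ⟨a, ha, b, hb, hab⟩ := h.fac g
    refine ⟨a, ha, hAK ha, b, hb, ?_, hab⟩
    have : b = a⁻¹ * g := by rw [hab]; group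
    rw [this]
    exact K.mul_mem (K.inv_mem (hAK ha)) hg
  have hKbot := h.quo K hKn hKs
  have hBtop : ∀ g : G, g ∈ B := by
    intro g
    obtain ⟨a, ha, b, hb, hab⟩ := h.fac g
    have ha1 : a = 1 := by
      have := hAK ha
      rw [hKbot, Subgroup.mem_bot] at this
      exact this
    rw [hab, ha1, one_mul]
    exact hb
  exact h.ns (hS2 G B0 h.abB (fun x y hx hy => h.two.2 x (hBtop x) y (hBtop y) hx hy))

end Pool.Agent.H89.FK.EVEN
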