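import Pool.Agent.H16.FK.TargetsA

/-!
# hci_modules CRS: the s-parts of the enriched types are s-parts
-/

set_option autoImplicit false

namespace Pool.Agent.H89.FK

open Set Pool.Agent.H75.HCI Pool.Agent.H16.FK

/-- the enriched type at the empty list is the type -/
theorem TP_nil {kx k : ℕ} {L : Type} (T : List (Idx kx k) → L) (l : List (Idx kx k)) :
    TP T l [] = T l := by
  have hG : Good ([] : List (List (Fin k))) := fun a ha => by simp at ha
  unfold TP
  rw [if_pos hG]
  simp [frs]

theorem pf_CRS : T_CRS := by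
  intro kx k L T cl B h
  refine ⟨h.sub, fun C D1 D2 hC hD1 hD2 hc => ?_⟩
  obtain ⟨f, hf, him, hfix⟩ := h.hom C D1 D2 hC hD1 hD2 hc
  refine ⟨f, ⟨hf.inj, fun l hl => ?_, hf.cls⟩, him, hfix⟩
  have h1 := congrFun (hf.lab l hl) []
  rw [TP_nil, TP_nil] at h1
  exact h1

end Pool.Agent.H89.FK
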